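import Pool.Agent.Helper52.NF.St3

set_option autoImplicit false

namespace Pool.Agent.Helper22.NF

open Pool.Agent.Helper52.NF Finset

/-- **PG**: a packing in the vertex-face graph gives a packing of cycles. -/
theorem hPG (h : StFCY) : StPG := by
  intro V _ G rot φ hP σ q S h1 h2 h3
  have h4 := fun i => h V G rot φ hP σ (S i) (h1 i) (h2 i)
  choose b C hC using h4
  refine ⟨b, C, fun i => ⟨(hC i).1, (hC i).2.1⟩, ?_⟩
  intro i j hij x hx hx'
  obtain ⟨d, hd, ha, hb⟩ := (hC i).2.2 x hx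
  obtain ⟨d', hd', ha', hb'⟩ := (hC j).2.2 x hx'
  apply h3 i j hij d d' ha hb ha' hb'
  unfold eb
  rw [hd, hd']

end Pool.Agent.Helper22.NF
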